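import Mathlib
import Pool.Agent.H86.BT.Enc

set_option autoImplicit false
open Finset

/-!
# Minimum squared edge-length labelings of complete binary trees

The minimum `Q_k` of the sum of the squared edge lengths over all labelings of the `k`-level complete
binary tree is `4 ^ k / 8` plus a second term of the exact order `k ^ 2 * 2 ^ k`.
-/

namespace Pool.Agent.Results.MP_870659_co.TwoTermAsymptotics

/-- The vertices of the `k`-level complete binary tree `T_k`: the words over the two letters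
`false`, `true` of length less than `k`. The root is the empty word, the two children of a word `w`
of length less than `k - 1` are `false :: w` and `true :: w`. -/
abbrev Vert (k : ℕ) := {w : List Bool // w.length < k}

/-- The tree `T_k`: a word is adjacent to its children. -/
def T (k : ℕ) : SimpleGraph (Vert k) where
  Adj u v := (∃ b : Bool, u.1 = b :: v.1) ∨ (∃ b : Bool, v.1 = b :: u.1)
  symm := ⟨fun _ _ h => Or.symm h⟩
  loopless := ⟨fun u h => by
    rcases h with ⟨b, h⟩ | ⟨b, h⟩ <;> exact (List.cons_ne_self b u.1) h.symm⟩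

/-- A labeling of `T_k`: a bijection from the vertices onto `{1, ..., 2 ^ k - 1}`. -/
abbrev Labeling (k : ℕ) := Vert k ≃ Finset.Icc 1 (2 ^ k - 1)

/-- The squared length of an edge. -/
def sqLength {k : ℕ} (L : Labeling k) : Sym2 (Vert k) → ℕ :=
  Sym2.lift ⟨fun u v => (((L u : ℕ) : ℤ) - ((L v : ℕ) : ℤ)).natAbs ^ 2, fun u v => by
    show (((L u : ℕ) : ℤ) - ((L v : ℕ) : ℤ)).natAbs ^ 2 = (((L v : ℕ) : ℤ) - ((L u : ℕ) : ℤ)).natAbs ^ 2
    rw [← Int.natAbs_neg, neg_sub]⟩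

/-- The cost of a labeling: the sum over the edges of the squared differences of the labels of the
two endpoints. -/
noncomputable def cost {k : ℕ} (L : Labeling k) : ℕ := ∑ᶠ e ∈ (T k).edgeSet, sqLength L e

/-- `Q_k`: the minimum of the costs of all labelings of `T_k`. -/
noncomputable def Q (k : ℕ) : ℕ := sInf {q : ℕ | ∃ L : Labeling k, cost L = q}

open Pool.Agent.H86.BT

/-! ### Heap order -/

open Classical in
/-- the vertex with the heap number `v` -/
noncomputable def vtx (n v : ℕ) : Vert (n + 1) :=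
  if h : Vt n v then ⟨(enc_surj v h.1).choose, len_lt (by rw [(enc_surj v h.1).choose_spec]; exact h.2)⟩
  else ⟨[], by simp⟩

lemma enc_vtx {n v : ℕ} (h : Vt n v) : enc (vtx n v).1 = v := by
  unfold vtx
  rw [dif_pos h]
  exact (enc_surj v h.1).choose_spec

lemma vt_enc {n : ℕ} (w : Vert (n + 1)) : Vt n (enc w.1) := ⟨enc_pos _, enc_lt w.2⟩

lemma vtx_enc {n : ℕ} (w : Vert (n + 1)) : vtx n (enc w.1) = w :=
  Subtype.ext (enc_inj (enc_vtx (vt_enc w)))

lemma vt_half {n c : ℕ} (h2 : 2 ≤ c) (h : c < 2 ^ (n + 1)) : Vt n c ∧ Vt n (c / 2) :=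
  ⟨⟨by omega, h⟩, ⟨by omega, by omega⟩⟩

/-- the edge above the vertex `c` -/
noncomputable def edg (n c : ℕ) : Sym2 (Vert (n + 1)) := s(vtx n c, vtx n (c / 2))

lemma vtx_cons {n c : ℕ} (h2 : 2 ≤ c) (h : c < 2 ^ (n + 1)) :
    ∃ b : Bool, (vtx n c).1 = b :: (vtx n (c / 2)).1 := by
  obtain ⟨g1, g2⟩ := vt_half h2 h
  have e1 := enc_vtx g1
  have e2 := enc_vtx g2
  rcases hw : (vtx n c).1 with _ | ⟨b, w⟩
  · rw [hw, enc] at e1
    omega
  · refine ⟨b, ?_⟩
    have h3 : enc w = enc (vtx n (c / 2)).1 := by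
      rw [e2, ← enc_half b w, ← hw, e1]
    rw [enc_inj h3]

lemma edge_set (n : ℕ) : (T (n + 1)).edgeSet = edg n '' (Ico 2 (2 ^ (n + 1)) : Finset ℕ) := by
  ext e
  constructor
  · induction e using Sym2.ind with
    | _ u v =>
      intro h
      rw [SimpleGraph.mem_edgeSet] at h
      have key : ∀ u v : Vert (n + 1), (∃ b : Bool, u.1 = b :: v.1) →
          enc u.1 ∈ (Ico 2 (2 ^ (n + 1)) : Finset ℕ) ∧ edg n (enc u.1) = s(u, v) := by
        rintro u v ⟨b, hb⟩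
        have h1 : enc u.1 / 2 = enc v.1 := by rw [hb, enc_half]
        have h2 := (vt_enc u).2
        have h3 := enc_pos v.1
        refine ⟨mem_Ico.2 ⟨by omega, h2⟩, ?_⟩
        unfold edg
        rw [h1, vtx_enc, vtx_enc]
      rcases h with h | h
      · obtain ⟨h1, h2⟩ := key u v h
        exact ⟨_, h1, h2⟩
      · obtain ⟨h1, h2⟩ := key v u h
        exact ⟨_, h1, h2.trans Sym2.eq_swap⟩
  · rintro ⟨c, hc, rfl⟩
    rw [mem_coe, mem_Ico] at hc
    unfold edg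
    rw [SimpleGraph.mem_edgeSet]
    exact Or.inl (vtx_cons hc.1 hc.2)

lemma edg_inj (n : ℕ) : Set.InjOn (edg n) (Ico 2 (2 ^ (n + 1)) : Finset ℕ) := by
  intro c hc c' hc' h
  rw [mem_coe, mem_Ico] at hc hc'
  obtain ⟨g1, g2⟩ := vt_half hc.1 hc.2
  obtain ⟨g1', g2'⟩ := vt_half hc'.1 hc'.2
  unfold edg at h
  rw [Sym2.eq_iff] at h
  rcases h with ⟨h, -⟩ | ⟨h1, h2⟩
  · have e1 : enc (vtx n c).1 = enc (vtx n c').1 := by rw [h]
    rwa [enc_vtx g1, enc_vtx g1'] at e1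
  · have e1 : enc (vtx n c).1 = enc (vtx n (c' / 2)).1 := by rw [h1]
    have e2 : enc (vtx n (c / 2)).1 = enc (vtx n c').1 := by rw [h2]
    rw [enc_vtx g1, enc_vtx g2'] at e1
    rw [enc_vtx g2, enc_vtx g1'] at e2
    omega

/-- the cost in heap order -/
lemma cost_eq {n : ℕ} (L : Labeling (n + 1)) :
    (cost L : ℝ) = En (fun v => ((((L (vtx n v) : ℕ) : ℤ)) : ℝ)) n := by
  unfold cost
  rw [edge_set, finsum_mem_image (edg_inj n), finsum_mem_coe_finset]
  unfold En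
  push_cast
  refine sum_congr rfl fun c _ => ?_
  show ((((((L (vtx n c) : ℕ) : ℤ) - ((L (vtx n (c / 2)) : ℕ) : ℤ)).natAbs ^ 2 : ℕ)) : ℝ) = _
  rw [Nat.cast_pow, Nat.cast_natAbs, Int.cast_abs, sq_abs]
  push_cast
  rfl

lemma inj_L {n : ℕ} (L : Labeling (n + 1)) :
    Set.InjOn (fun v => ((L (vtx n v) : ℕ) : ℤ)) (Ico 1 (2 ^ (n + 1)) : Finset ℕ) := by
  intro v hv w hw h
  rw [mem_coe, mem_Ico] at hv hw
  have h0 : ((L (vtx n v) : ℕ) : ℤ) = ((L (vtx n w) : ℕ) : ℤ) := h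
  have h1 : (L (vtx n v) : ℕ) = (L (vtx n w) : ℕ) := by exact_mod_cast h0
  have h2 : vtx n v = vtx n w := L.injective (Subtype.ext h1)
  have h3 : enc (vtx n v).1 = enc (vtx n w).1 := by rw [h2]
  rwa [enc_vtx hv, enc_vtx hw] at h3

/-- heap order as a bijection -/
noncomputable def heap (n : ℕ) : Labeling (n + 1) :=
  Equiv.ofBijective (fun w => ⟨enc w.1, mem_Icc.2 ⟨enc_pos _, Nat.le_sub_one_of_lt (enc_lt w.2)⟩⟩) (by
    constructor
    · intro w w' h
      exact Subtype.ext (enc_inj (congrArg (fun x : Finset.Icc 1 (2 ^ (n + 1) - 1) => (x : ℕ)) h))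
    · rintro ⟨v, hv⟩
      rw [mem_Icc] at hv
      have h0 := Nat.one_le_two_pow (n := n + 1)
      have hv' : Vt n v := ⟨hv.1, by omega⟩
      exact ⟨vtx n v, Subtype.ext (enc_vtx hv')⟩)

/-- the labeling by the ranks of the harmonic positions -/
noncomputable def rankL (n : ℕ) : Labeling (n + 1) :=
  (heap n).trans (Equiv.ofBijective (fun v => ⟨rk n v, by
    have hv := mem_Icc.1 v.2
    have h0 := Nat.one_le_two_pow (n := n + 1)
    exact mem_Icc.2 ⟨rk_pos ⟨hv.1, by omega⟩, Nat.le_sub_one_of_lt rk_lt⟩⟩)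
    (Finite.injective_iff_bijective.1 (by
      rintro ⟨v, hv⟩ ⟨w, hw⟩ h
      have h0 := Nat.one_le_two_pow (n := n + 1)
      have hv1 := mem_Icc.1 hv
      have hw1 := mem_Icc.1 hw
      have hv2 : Vt n v := ⟨hv1.1, by omega⟩
      have hw2 : Vt n w := ⟨hw1.1, by omega⟩
      have h3 : rk n v = rk n w :=
        congrArg (fun x : Finset.Icc 1 (2 ^ (n + 1) - 1) => (x : ℕ)) h
      exact Subtype.ext (rk_inj hv2 hw2 h3))))

lemma cost_rankL (n : ℕ) : (cost (rankL n) : ℝ) = En (fun v => (rk n v : ℝ)) n := by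
  rw [cost_eq]
  unfold En
  refine sum_congr rfl fun c hc => ?_
  rw [mem_Ico] at hc
  obtain ⟨g1, g2⟩ := vt_half hc.1 hc.2
  have key : ∀ v, Vt n v → ((rankL n (vtx n v) : ℕ) : ℤ) = rk n v := by
    intro v hv
    have : (rankL n (vtx n v) : ℕ) = rk n (enc (vtx n v).1) := rfl
    rw [this, enc_vtx hv]
  show (((((rankL n (vtx n c) : ℕ) : ℤ)) : ℝ) - ((((rankL n (vtx n (c / 2)) : ℕ) : ℤ)) : ℝ)) ^ 2 = _
  rw [key c g1, key _ g2]
  push_cast
  rfl

lemma Q_mem (n : ℕ) : ∃ L : Labeling (n + 1), cost L = Q (n + 1) := by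
  have : Q (n + 1) ∈ {q : ℕ | ∃ L : Labeling (n + 1), cost L = q} := Nat.sInf_mem ⟨_, rankL n, rfl⟩
  exact this

lemma Q_upper (n : ℕ) : (Q (n + 1) : ℝ) ≤ 4 ^ (n + 1) / 8 +
    2 ^ (n + 1) * (2 * ((n : ℝ) + 1) ^ 2 + 48 * ((n : ℝ) + 2) ^ 2 + 2) := by
  have h : Q (n + 1) ≤ cost (rankL n) := Nat.sInf_le ⟨rankL n, rfl⟩
  have h2 : (Q (n + 1) : ℝ) ≤ cost (rankL n) := by exact_mod_cast h
  rw [cost_rankL] at h2
  exact h2.trans (En_rk n)

/-- **Two-term asymptotics of the minimum squared edge-length of complete binary trees.** The minimum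
`Q_k` over all labelings of `T_k` satisfies `Q_k = 4 ^ k / 8 + Θ(k ^ 2 * 2 ^ k)`, with the explicit
bounds below for `k ≥ 64`; for all `k ≥ 2` the difference `Q_k - 4 ^ k / 8` is at least `- 2 ^ k / 4` and
at most `196 * k ^ 2 * 2 ^ k`. -/
theorem result :
    (∀ k : ℕ, 64 ≤ k →
      (4 : ℝ) ^ k / 8 + (k : ℝ) ^ 2 * 2 ^ k / 2000 ≤ Q k ∧
        (Q k : ℝ) ≤ (4 : ℝ) ^ k / 8 + 52 * (k : ℝ) ^ 2 * 2 ^ k) ∧
    (∀ k : ℕ, 2 ≤ k →
      (4 : ℝ) ^ k / 8 - 2 ^ k / 4 ≤ Q k ∧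
        (Q k : ℝ) ≤ (4 : ℝ) ^ k / 8 + 196 * (k : ℝ) ^ 2 * 2 ^ k) := by
  constructor
  · intro k hk
    obtain ⟨n, rfl⟩ : ∃ n, k = n + 1 := ⟨k - 1, by omega⟩
    have hk' : (64 : ℝ) ≤ (n : ℝ) + 1 := by exact_mod_cast hk
    have hp : (0 : ℝ) < 2 ^ (n + 1) := by positivity
    constructor
    · obtain ⟨L, hL⟩ := Q_mem n
      rw [← hL, cost_eq]
      have := low (inj_L L) hk
      push_cast at this ⊢
      exact this
    · have h := Q_upper n
      push_cast
      have h1 : 2 * ((n : ℝ) + 1) ^ 2 + 48 * ((n : ℝ) + 2) ^ 2 + 2 ≤ 52 * ((n : ℝ) + 1) ^ 2 := by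
        nlinarith
      have h2 := mul_le_mul_of_nonneg_left h1 hp.le
      linarith
  · intro k hk
    obtain ⟨n, rfl⟩ : ∃ n, k = n + 1 := ⟨k - 1, by omega⟩
    have hk' : (2 : ℝ) ≤ (n : ℝ) + 1 := by exact_mod_cast hk
    have hp : (0 : ℝ) < 2 ^ (n + 1) := by positivity
    constructor
    · obtain ⟨L, hL⟩ := Q_mem n
      rw [← hL, cost_eq]
      exact low0 (inj_L L)
    · have h := Q_upper n
      push_cast
      have h1 : 2 * ((n : ℝ) + 1) ^ 2 + 48 * ((n : ℝ) + 2) ^ 2 + 2 ≤ 196 * ((n : ℝ) + 1) ^ 2 := by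
        nlinarith
      have h2 := mul_le_mul_of_nonneg_left h1 hp.le
      linarith

end Pool.Agent.Results.MP_870659_co.TwoTermAsymptotics
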